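import Pool.Agent.N179.GR.Defs

/-!
# The variational Hodge conjecture, independent families and an arbitrary family: definitions
-/

set_option autoImplicit false

universe u

namespace Pool.Agent.N179.VH

open Pool.Agent.TH125.Gal Pool.Agent.N179.GR.S
open Pool.Agent.H914 Pool.Agent.H914.VarClass Pool.Agent.H914.VarClass.Obj
  Pool.Agent.H914.WeilCohomology

section Alg

variable {K : Type} [Field K] {A : Type} [Ring A] [Algebra K A] {B : Type} [Ring B]
  [Algebra K B] {Γ : Type} [Group Γ]

/-- The products of elements of `C` and `C'` are in `D`. -/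
def MulIn (C C' D : Submodule K A) : Prop := ∀ a ∈ C, ∀ b ∈ C', a * b ∈ D

/-- The algebra homomorphism `f` maps `C` to `D`. -/
def PullIn (f : B →ₐ[K] A) (C : Submodule K B) (D : Submodule K A) : Prop := ∀ c ∈ C, f c ∈ D

/-- The linear map `f` maps `C` to `D`. -/
def PushIn (f : A →ₗ[K] B) (C : Submodule K A) (D : Submodule K B) : Prop := ∀ c ∈ C, f c ∈ D

/-- All elements of `C j` which are fixed by a subgroup of finite index are in `C' j`. -/
def FixedIn (ρ : AlgActs K A Γ) (C C' : ℕ → Submodule K A) : Prop :=
  ∀ j, ∀ c ∈ C j, (∃ Δ : Subgroup Γ, Δ.FiniteIndex ∧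
    ∀ g ∈ Δ, (show Γ →* (A ≃ₐ[K] A) from ρ) g c = c) → c ∈ C' j

/-- Every semi-invariant element is a linear combination of elements of the sets `S j`. -/
def SemiIn [FiniteDimensional K A] (S : ℕ → Set A) (ρ : Γ →* (A ≃ₐ[K] A)) : Prop :=
  ∀ z ∈ semis ρ, z ∈ Submodule.span K (⋃ j, S j)

/-- An element of one of the sets `S i` is zero if the traces of its products with the elements of all
the sets `S j` are zero. -/
def NondegOn (S : ℕ → Set A) (tr : A →ₗ[K] K) : Prop :=
  ∀ i, ∀ a ∈ S i, (∀ j, ∀ b ∈ S j, tr (a * b) = 0) → a = 0

end Alg

variable {k : Type u} [Field k] {𝒱 : VarClass k} {ops : CycleOps 𝒱}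

/-- The systems of subspaces of the cohomology of the varieties in `𝒱`, indexed by the codimension. -/
def Sys (W : WeilCohomology.{u, 0} ops) : Type (u + 1) := ∀ V : 𝒱.Obj, ℕ → Submodule W.K (W.H V)

/-- The properties of the system of the spans of the classes which are algebraic on the fibre over a
point of the base: it contains the classes of (relative) cycles, and is stable under products,
pull-back, and push-forward along projections. -/
structure IsFibre {W : WeilCohomology.{u, 0} ops} (C : Sys W) : Prop where
  alg : ∀ (V : 𝒱.Obj) (j : ℕ), algClasses W V j ⊆ (C V j : Set (W.H V))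
  degree : ∀ (V : 𝒱.Obj) (j : ℕ), C V j ≤ W.gr V (2 * j)
  mul : ∀ (V : 𝒱.Obj) (i j : ℕ), MulIn (C V i) (C V j) (C V (i + j))
  pull : ∀ {V V' : 𝒱.Obj} (f : V ⟶ V') (j : ℕ), PullIn (W.map f) (C V' j) (C V j)
  push : ∀ (V V' : 𝒱.Obj) (j : ℕ),
    PushIn (W.push (snd V V')) (C (V.prod V') (V.dim + j)) (C V' j)

variable {W : WeilCohomology.{u, 0} ops} {Γ : Type} [Group Γ]

/-- The variational Hodge conjecture for the family `Y`, where `A s` is the system of the classes which
are algebraic on the fibres over the point `s`: all classes which are fixed by a subgroup of finite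
index and algebraic on the fibre over `s` are algebraic on the fibre over `t`, for all `s`, `t`. -/
def VarHodge {S : Type} (A : S → Sys W) (Y : GVar W Γ) : Prop :=
  ∀ s t, FixedIn Y.act (A s Y.X) (A t Y.X)

/-- The factor `P`: `Γ` preserves the degrees and the trace form, the relative cycles are fixed by
subgroups of finite index, the semi-invariant classes are combinations of classes of relative cycles,
the class of a relative cycle is zero if all its intersection numbers with relative cycles are zero,
and there is a zero-cycle of degree different from `0`. -/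
structure Factor (P : GVar W Γ) : Prop where
  galois : IsGaloisAct (1 : Γ →* W.Kˣ) (W.gr P.X) P.X.dim (W.tr P.X) (algClasses W P.X) P.act
  semi : SemiIn (algClasses W P.X) P.act
  num : NondegOn (algClasses W P.X) (W.tr P.X)
  point : HasPoint P

/-- The variational Hodge conjecture for `Y`, where `Y` is a tower over `Z` with factors without
indices in `E`, is equivalent to the conjecture for `Z`. -/
def VarOutside {S : Type} (A : S → Sys W) {ι : Type} (V : ι → GRep W.K Γ) (Z : GVar W Γ)
    (E : Set ι) : Prop :=
  ∀ (L : List (ι × GVar W Γ)) (Y : GVar W Γ), Tower V Z L Y →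
    (∀ x ∈ L, x.1 ∉ E ∧ Factor x.2) → (VarHodge A Y ↔ VarHodge A Z)

/-- The set `E` of exceptional indices with respect to `U` is finite, and the number of its elements
is at most `d - d'`, where `d` is the dimension of `U` and `d'` is the dimension of the span of the
semi-invariant vectors; it is at most `(d - d') / 2` if `U` carries a nondegenerate form which is
invariant up to a character. -/
structure Bounded {ι : Type} {K : Type} [Field K] {Γ : Type} [Group Γ] (U : GRep K Γ)
    (E : Set ι) : Prop where
  finite : E.Finite
  card : E.ncard + (semiSpan U).dim ≤ dim U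
  form : (∃ B : Form U, InvForm B) → 2 * E.ncard + (semiSpan U).dim ≤ dim U

/-- `E U` is the set of the exceptional indices with respect to the representation `U`: it is finite with
the bounds `Bounded`; no `j ≠ i` is exceptional with respect to `V i`; and if the cohomology of `Z` is
generated by finitely many representations `U a` (for instance by its own cohomology), then
`VarOutside` is true for all systems of algebraic classes, `Z` and the union of the sets `E (U a)`. -/
structure VarSplitting {ι : Type} (V : ι → GRep W.K Γ) (E : GRep W.K Γ → Set ι) : Prop where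
  bounded : ∀ U, Bounded U (E U)
  self : ∀ i, E (V i) ⊆ {i}
  outside : ∀ (S : Type) (A : S → Sys W), (∀ s, IsFibre (A s)) → ∀ (m : ℕ)
    (U : Fin m → GRep W.K Γ) (Z : GVar W Γ), GeneratedBy U Z → VarOutside A V Z (⋃ a, E (U a))

end Pool.Agent.N179.VH
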