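import Pool.Agent.N179.VH.Defs
import Pool.Agent.N179.SP.Fin
import Pool.Agent.N179.FO.Fin

/-!
# The variational Hodge conjecture, independent families and an arbitrary family: the theorem
-/

set_option autoImplicit false
set_option linter.unusedSectionVars false

open CategoryTheory AlgebraicGeometry

universe u

namespace Pool.Agent.N179.VH

open Module Pool.Agent.TH125.Gal Pool.Agent.N179.GR Pool.Agent.N179.GR.S

open Pool.Agent.H914 Pool.Agent.H914.VarClass Pool.Agent.H914.VarClass.Obj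
  Pool.Agent.H914.WeilCohomology Pool.Agent.W552 Pool.Agent.H281R3.HT

variable {k : Type u} [Field k] {𝒱 : VarClass k} {ops : CycleOps 𝒱}
  {W : WeilCohomology.{u, 0} ops} {Γ : Type} [Group Γ]

theorem homEqNum_of {X : 𝒱.Obj} (h : NondegOn (algClasses W X) (W.tr X)) : HomEqNum W X := by
  intro j hj z hz h0
  refine h j _ ⟨z, hz, rfl⟩ fun i b hb => ?_
  obtain ⟨w, hw, rfl⟩ := hb
  by_cases hij : j + i = X.dim
  · have h1 : X.IsCyc (X.dim - j) w := by rwa [show X.dim - j = i by omega]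
    have h2 : X.IsCyc X.dim (ops.mul z w) := hij ▸ ops.mul_mem hz hw
    rw [← W.cl_mul, W.tr_cl h2, h0 w h1, Rat.cast_zero]
  · exact W.tr_eq_zero (W.mul_mem (alg_gr ⟨z, hz, rfl⟩) (alg_gr ⟨w, hw, rfl⟩)) (by omega)

section step

variable {P Y : GVar W Γ} {χ : Γ →* W.Kˣ}
  {υ : Γ →* (W.H (P.X.prod Y.X) ≃ₐ[W.K] W.H (P.X.prod Y.X))}

theorem ctr_actV (hG : IsGalois W χ P.X P.act) (h1 : Intertwines (W.map (fst P.X Y.X)) P.act υ)
    (h2 : Intertwines (W.map (snd P.X Y.X)) Y.act υ) (s : SB W P.X) (l : Fin s.NC) {g : Γ}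
    (hg : ∀ i, P.act g (s.bC i) = (χ g : W.K) ^ s.jC i • (s.bC i : W.H P.X))
    (z : W.H (P.X.prod Y.X)) :
    ctr (Z := Y.X) (s.e.coord (Sum.inl l)) (υ g z) =
      (χ g : W.K) ^ s.jC l • Y.act g (ctr (Z := Y.X) (s.e.coord (Sum.inl l)) z) := by
  have h3 : ∀ a, s.e.coord (Sum.inl l) (P.act g a) =
      (χ g : W.K) ^ s.jC l * s.e.coord (Sum.inl l) a := by
    intro a
    have h4 := bil_act hG g (s.uC l) a
    rw [uC_act hG s hg, map_smul, LinearMap.smul_apply, smul_eq_mul] at h4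
    rw [FO.coord_bil, FO.coord_bil]
    have h5 : (χ g : W.K) ^ P.X.dim = (χ g : W.K) ^ (P.X.dim - s.jC l) * (χ g : W.K) ^ s.jC l := by
      rw [← pow_add, Nat.sub_add_cancel (jC_le s l)]
    rw [h5, mul_assoc] at h4
    exact mul_left_cancel₀ (pow_ne_zero _ (Units.ne_zero _)) h4
  refine kun_ext (L := fun z => ctr (Z := Y.X) (s.e.coord (Sum.inl l)) (υ g z))
    (L' := fun z => (χ g : W.K) ^ s.jC l • Y.act g (ctr (Z := Y.X) (s.e.coord (Sum.inl l)) z))
    (fun a b => by rw [map_add, map_add]) (fun a b => by rw [map_add, map_add, smul_add])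
    (fun a y => ?_) z
  rw [map_mul, h1 g, h2 g, ctr_apply, ctr_apply, h3, map_smul, smul_smul]

/-- **One step.** -/
theorem stepV (hG : IsGalois W (1 : Γ →* W.Kˣ) P.X P.act) (hDX : HomEqNum W P.X)
    (h1 : Intertwines (W.map (fst P.X Y.X)) P.act υ)
    (h2 : Intertwines (W.map (snd P.X Y.X)) Y.act υ) {C C' : Sys W} (hC : IsFibre C)
    (hC' : IsFibre C')
    (hs : ∀ z : W.H (P.X.prod Y.X), (∃ Δ : Subgroup Γ, Δ.FiniteIndex ∧ ∀ g ∈ Δ, υ g z = z) →
      ∀ ψ, ctr2 ψ z ∈ algSpan W P.X)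
    (hT : FixedIn Y.act (C Y.X) (C' Y.X)) :
    FixedIn υ (C (P.X.prod Y.X)) (C' (P.X.prod Y.X)) := by
  obtain ⟨s⟩ := exists_SB hDX
  obtain ⟨Δ', hΔ', hfix⟩ := exists_fix hG s
  rintro j z hz ⟨Δ, hΔ, hg⟩
  have hg' : ∀ g ∈ Δ, υ g z = z := hg
  have hK := hs z ⟨Δ, hΔ, hg'⟩
  change z ∈ C' (P.X.prod Y.X) j
  rw [Pool.Agent.TH125.Gal.expand s.e z, Fintype.sum_sum_type]
  refine Submodule.add_mem _ (Submodule.sum_mem _ fun l _ => ?_)
    (Submodule.sum_mem _ fun i _ => ?_)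
  swap
  · have h3 : ctr (Z := Y.X) (s.e.coord (Sum.inr i)) z = 0 := by
      refine (Module.forall_dual_apply_eq_zero_iff W.K _).1 fun ψ => ?_
      rw [ctr_comm, FG.coord_inr s (hK ψ)]
    rw [h3, map_zero, mul_zero]
    exact Submodule.zero_mem _
  have hdeg := FO.ctr_gr s l (hC.degree _ _ hz)
  by_cases hjl : s.jC l ≤ j
  · have hx : ctr (Z := Y.X) (s.e.coord (Sum.inl l)) z ∈ C Y.X (j - s.jC l) := by
      rw [FO.ctr_push]
      apply hC.push
      have h3 : (s.uC l : W.H P.X) ∈ C P.X (P.X.dim - s.jC l) :=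
        (Submodule.span_le.2 (hC.alg P.X (P.X.dim - s.jC l)))
          (Pool.Agent.TH125.Gal.algSpan_gr (s.uC l).2 (FO.uC_gr s l))
      have h4 := hC.mul (P.X.prod Y.X) (P.X.dim - s.jC l) j _ (hC.pull (fst P.X Y.X) _ _ h3) _ hz
      have h5 := jC_le s l
      rwa [show P.X.dim - s.jC l + j = P.X.dim + (j - s.jC l) by omega] at h4
    have hx' := hT _ _ hx ⟨Δ ⊓ Δ', inferInstance, fun g hgg => by
      have h3 := ctr_actV hG h1 h2 s l (hfix g hgg.2) z
      rw [hg' g hgg.1, MonoidHom.one_apply, Units.val_one, one_pow, one_smul] at h3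
      exact h3.symm⟩
    have h4 := hC'.mul (P.X.prod Y.X) (s.jC l) (j - s.jC l) _
      (hC'.pull (fst P.X Y.X) _ _ (hC'.alg P.X (s.jC l) (s.alg l))) _
      (hC'.pull (snd P.X Y.X) _ _ hx')
    rw [Nat.add_sub_cancel' hjl] at h4
    rw [s.e_inl]
    exact h4
  · rw [if_neg (by omega), Submodule.mem_bot] at hdeg
    rw [hdeg, map_zero, mul_zero]
    exact Submodule.zero_mem _

/-- The converse. -/
theorem convV (h2 : Intertwines (W.map (snd P.X Y.X)) Y.act υ) (hpt : HasPoint P)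
    {C C' : Sys W} (hC : IsFibre C) (hC' : IsFibre C')
    (hT : FixedIn υ (C (P.X.prod Y.X)) (C' (P.X.prod Y.X))) :
    FixedIn Y.act (C Y.X) (C' Y.X) := by
  rintro j c hc ⟨Δ, hΔ, hg⟩
  have hg' : ∀ g ∈ Δ, Y.act g c = c := hg
  have h3 := hT j _ (hC.pull (snd P.X Y.X) _ _ hc) ⟨Δ, hΔ, fun g hgg => by
    change υ g (W.map (snd P.X Y.X) c) = _
    rw [h2 g, hg' g hgg]⟩
  obtain ⟨a, ha, ha0⟩ := hpt
  have h4 := hC'.push P.X Y.X j _ (hC'.mul _ P.X.dim j _
    (hC'.pull (fst P.X Y.X) _ _ (hC'.alg P.X P.X.dim ha)) _ h3)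
  rw [W.push_snd] at h4
  exact (Submodule.smul_mem_iff _ ha0).1 h4

end step

section tower

variable {ι : Type} {V : ι → GRep W.K Γ} {Z : GVar W Γ} {L : List (ι × GVar W Γ)} {Y : GVar W Γ}

theorem tower_var [IsAlgClosed W.K] {T : Type} {A : T → Sys W} (hA : ∀ s, IsFibre (A s)) {m : ℕ}
    {E : Set ι} {U : Fin m → GRep W.K Γ} (hU : ∀ i ∉ E, ∀ a, Spl (fl (V i)) {fl (U a)})
    (hV : ∀ i ∉ E, ∀ j ∉ E, j ≠ i → Spl (fl (V i)) {fl (V j)})
    (hZ : GeneratedBy U Z) (hY : S.Tower V Z L Y) :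
    (∀ x ∈ L, x.1 ∉ E ∧ Factor x.2) → (VarHodge A Y ↔ VarHodge A Z) := by
  induction hY with
  | base => exact fun _ => Iff.rfl
  | @step L Y i P υ hT hi hP hυ ih =>
    intro hL
    have hL' := fun x hx => hL x (List.mem_cons_of_mem (i, P) hx)
    obtain ⟨hiE, hF⟩ := hL (i, P) List.mem_cons_self
    rw [← ih hL']
    refine ⟨fun h s t => convV hυ.2 hF.point (hA s) (hA t) (h s t), fun h s t =>
      stepV (isGalois hF.galois) (homEqNum_of hF.num) hυ.1 hυ.2 (hA s) (hA t) (fun z hz ψ => ?_)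
        (h s t)⟩
    obtain ⟨Δ, hΔ, hg⟩ := hz
    have h5 := SP.slices hZ hT (i := i) (hU i hiE)
      (fun x hx => hV i hiE x.1 (hL' x hx).1 (hi x hx)) hP hυ (z := z)
      ⟨Δ, hΔ, fun g hgg => ⟨1, (hg g hgg).trans (one_smul _ _).symm⟩⟩ ψ
    exact (Submodule.span_le.2 fun y hy => hF.semi y hy) h5

end tower

/-- **The theorem.** -/
theorem final (hK : Nonempty (W.K ≃+* ℂ)) {ι : Type} {V : ι → GRep W.K Γ} (hV : Family V) :
    ∃ E : GRep W.K Γ → Set ι, VarSplitting V E := by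
  obtain ⟨e⟩ := hK
  have halg : IsAlgClosed W.K := IsAlgClosed.of_ringEquiv ℂ W.K e.symm
  refine ⟨Exc V, ⟨fun U => ⟨(exceptional e hV U).finite, (exceptional e hV U).card,
    (exceptional e hV U).card_form⟩, fun j i hi => ?_, fun S A hA m U Z hZ L Y hY hL => ?_⟩⟩
  · by_contra h
    exact hi (hV.pair h)
  · refine tower_var hA (U := U) (E := ⋃ a, Exc V (U a)) (fun i hi a => ?_)
      (fun i _ j _ hij => hV.pair hij.symm) hZ hY hL
    by_contra h
    exact hi (Set.mem_iUnion.2 ⟨a, h⟩)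

end Pool.Agent.N179.VH
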